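import Pool.Agent.ZPT.Stmts

/-!
Row JS of the squad ZPT: `J` is surjective.
-/

set_option autoImplicit false

noncomputable section

namespace Pool.Agent.ZPT.H77

open UpperHalfPlane ModularForm ModularFormClass MatrixGroups EisensteinSeries Filter Topology

theorem tendsto_coeff {k : ℤ} (f : ModularForm 𝒮ℒ k) :
    Tendsto f atImInfty (𝓝 ((qExpansion 1 f).coeff 0)) := by
  have hanal := ModularFormClass.analyticAt_cuspFunction_zero f one_pos one_mem_strictPeriods_SL
  have hper := SlashInvariantFormClass.periodic_comp_ofComplex f one_mem_strictPeriods_SL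
  rw [UpperHalfPlane.qExpansion_coeff_zero one_pos hanal hper,
    ← UpperHalfPlane.cuspFunction_apply_zero one_pos hanal hper]
  exact (hanal.continuousAt.tendsto.comp (qParam_tendsto_atImInfty one_pos)).congr
    (fun τ ↦ SlashInvariantFormClass.eq_cuspFunction f τ one_mem_strictPeriods_SL one_ne_zero)

/-- the form `E₄³ - x Δ` -/
def DD (x : ℂ) : ModularForm 𝒮ℒ 12 :=
  ModularForm.mcast (by decide) (E₄.pow 3) - x • CuspForm.toModularFormₗ CuspForm.discriminant

theorem DD_apply (x : ℂ) (z : ℍ) :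
    DD x z = E₄ z ^ 3 - x * ModularForm.discriminant z := by
  simp only [DD, coe_mcast, coe_pow, _root_.sub_apply, Pi.pow_apply]
  rfl

theorem DD_tendsto (x : ℂ) : Tendsto (DD x) atImInfty (𝓝 1) := by
  have h1 : Tendsto E₄ atImInfty (𝓝 1) := by
    have h := tendsto_coeff E₄
    rwa [show (qExpansion 1 E₄).coeff 0 = 1 from E_qExpansion_coeff_zero _ ⟨2, rfl⟩] at h
  have h2 : Tendsto ModularForm.discriminant atImInfty (𝓝 0) := discriminant_isZeroAtImInfty
  have h3 := (h1.pow 3).sub (h2.const_mul x)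
  rw [one_pow, mul_zero, sub_zero] at h3
  exact h3.congr fun z => (DD_apply x z).symm

theorem slash_aux (x : ℂ) (γ : SL(2, ℤ)) :
    (fun z ↦ ModularForm.discriminant z / DD x z) ∣[(12 - 12 : ℤ)] γ =
      fun z ↦ ModularForm.discriminant z / DD x z := by
  have hγ : (γ : GL (Fin 2) ℝ) ∈ 𝒮ℒ := ⟨γ, rfl⟩
  change (⇑CuspForm.discriminant / ⇑(DD x)) ∣[(12 - 12 : ℤ)] γ =
    ⇑CuspForm.discriminant / ⇑(DD x)
  simp_rw [div_slash_SL2, SL_slash, SlashInvariantForm.slash_action_eqn _ _ hγ]

/-- the quotient `Δ / (E₄³ - x Δ)` -/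
def GG (x : ℂ) (hx : ∀ z, DD x z ≠ 0) : ModularForm 𝒮ℒ (12 - 12) where
  toFun z := ModularForm.discriminant z / DD x z
  slash_action_eq' := fun _ ⟨γ, hγ⟩ ↦ hγ ▸ slash_aux x γ
  holo' := CuspForm.discriminant.holo'.div (DD x).holo' hx
  bdd_at_cusps' {c} hc := by
    rw [Subgroup.IsArithmetic.isCusp_iff_isCusp_SL2Z] at hc
    rw [OnePoint.isBoundedAt_iff_forall_SL2Z hc]
    intro γ _
    rw [slash_aux x γ, IsBoundedAtImInfty, BoundedAtFilter]
    have h2 : Tendsto ModularForm.discriminant atImInfty (𝓝 0) := discriminant_isZeroAtImInfty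
    exact (h2.div (DD_tendsto x) one_ne_zero).isBigO_one ℝ

theorem js (hJE : JEStmt) : JSStmt := by
  intro x
  by_contra hne
  have hx : ∀ z, DD x z ≠ 0 := by
    intro z hz
    refine hne ⟨(z : ℂ), z.im_pos, ?_⟩
    rw [hJE z, div_eq_iff (discriminant_ne_zero z)]
    have := DD_apply x z
    rw [hz] at this
    exact (sub_eq_zero.mp this.symm)
  obtain ⟨c, hc⟩ := levelOne_weight_zero_const (ModularForm.mcast (by norm_num) (GG x hx) :
    ModularForm 𝒮ℒ 0)
  have hc' : ∀ z : ℍ, ModularForm.discriminant z / DD x z = c := fun z => congrFun hc z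
  have h2 : Tendsto ModularForm.discriminant atImInfty (𝓝 0) := discriminant_isZeroAtImInfty
  have h3 := h2.div (DD_tendsto x) one_ne_zero
  rw [zero_div] at h3
  have h4 : Tendsto (fun _ : ℍ => c) atImInfty (𝓝 0) := h3.congr fun z => hc' z
  have h5 : c = 0 := tendsto_nhds_unique tendsto_const_nhds h4
  have h6 := hc' UpperHalfPlane.I
  rw [h5, div_eq_zero_iff] at h6
  rcases h6 with h6 | h6
  · exact discriminant_ne_zero _ h6
  · exact hx _ h6

end Pool.Agent.ZPT.H77
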